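import Pool.Agent.Helper9.UP.StN

/-! Project UP: common lemmas of helper69 -/

set_option autoImplicit false

noncomputable section

namespace Pool.Agent.Helper69.UP

open Pool.Agent.Helper9.UP
open Finset NumberField Module

variable {K : Type} [Field K] [NumberField K]

theorem dg_pos : 1 ≤ dg K := Module.finrank_pos

theorem dg_posR : (1 : ℝ) ≤ dg K := by exact_mod_cast dg_pos (K := K)

theorem T_ge {T : ℝ} (h : Gen K T) : (dg K : ℝ) ≤ T := by
  obtain ⟨α, -, h2⟩ := h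
  obtain ⟨φ⟩ : Nonempty (K →+* ℂ) := inferInstance
  have := h2 φ 0 dg_pos
  simpa using this

theorem one_le_T {T : ℝ} (h : Gen K T) : 1 ≤ T := le_trans dg_posR (T_ge h)

theorem nm_prod (x : 𝓞 K) : nm K (Ideal.span {x}) = ∏ φ : K →+* ℂ, ‖φ (x : K)‖ := by
  unfold nm
  rw [Ideal.absNorm_span_singleton]
  have h : ((Algebra.norm ℤ x).natAbs : ℝ) = |((Algebra.norm ℚ (x : K) : ℚ) : ℝ)| := by
    rw [← Algebra.coe_norm_int, Nat.cast_natAbs]
    push_cast
    rfl
  rw [h]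
  have h2 := congrArg (fun z : ℂ => ‖z‖) (Algebra.norm_eq_prod_embeddings ℚ ℂ (x : K))
  simp only [norm_prod] at h2
  rw [← Fintype.prod_equiv (RingHom.equivRatAlgHom K ℂ) (fun f => ‖f (x : K)‖)
      (fun φ => ‖φ (x : K)‖) fun _ => by simp [RingHom.equivRatAlgHom_apply]] at h2
  rw [← h2, eq_ratCast, ← Real.norm_eq_abs, ← Complex.norm_real, Complex.ofReal_ratCast]

theorem nm_ge_one {I : Ideal (𝓞 K)} (hI : I ≠ ⊥) : 1 ≤ nm K I := by
  unfold nm
  have : Ideal.absNorm I ≠ 0 := by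
    rw [Ne, Ideal.absNorm_eq_zero_iff]
    exact hI
  exact_mod_cast Nat.one_le_iff_ne_zero.mpr this

theorem card_emb : Fintype.card (K →+* ℂ) = dg K := NumberField.Embeddings.card K ℂ

theorem span_ne {x : 𝓞 K} (hx : x ≠ 0) : Ideal.span {x} ≠ (⊥ : Ideal (𝓞 K)) := by
  rw [Ne, Ideal.span_singleton_eq_bot]
  exact hx

theorem nb_mono {B B' : ℝ} (h : B ≤ B') : nb K B ≤ nb K B' := by
  unfold nb
  have : (ball K B).card ≤ (ball K B').card := by
    apply Finset.card_le_card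
    intro x hx
    rw [mem_ball] at hx ⊢
    exact fun φ => (hx φ).trans h
  exact_mod_cast this

theorem nb_nonneg (B : ℝ) : 0 ≤ nb K B := by unfold nb; positivity

theorem nm_nat (q : ℕ) : nm K (Ideal.span {(q : 𝓞 K)}) = (q : ℝ) ^ dg K := by
  unfold nm dg
  rw [Ideal.absNorm_span_natCast, RingOfIntegers.rank]
  push_cast
  rfl

theorem nat_ne {q : ℕ} (hq : 1 ≤ q) : Ideal.span {(q : 𝓞 K)} ≠ ⊥ := by
  apply span_ne
  exact_mod_cast (by omega : q ≠ 0)

theorem nm_nat_root {q : ℕ} (hq : 1 ≤ q) :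
    nm K (Ideal.span {(q : 𝓞 K)}) ^ (1 / (dg K : ℝ)) = q := by
  rw [nm_nat, ← Real.rpow_natCast, ← Real.rpow_mul (by positivity)]
  have : (dg K : ℝ) ≠ 0 := by have := dg_posR (K := K); positivity
  rw [mul_one_div_cancel this, Real.rpow_one]

theorem emb_nat_mul (φ : K →+* ℂ) (q : ℕ) (x : 𝓞 K) :
    ‖φ (((q : 𝓞 K) * x : 𝓞 K) : K)‖ = q * ‖φ (x : K)‖ := by
  have h : (((q : 𝓞 K) * x : 𝓞 K) : K) = (q : K) * (x : K) := by
    rw [show (((q : 𝓞 K) * x : 𝓞 K) : K) = algebraMap (𝓞 K) K ((q : 𝓞 K) * x) from rfl,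
      map_mul, map_natCast]
  rw [h, map_mul, map_natCast, norm_mul, Complex.norm_natCast]

theorem ni_nat {q : ℕ} (hq : 1 ≤ q) (B : ℝ) :
    ni K (Ideal.span {(q : 𝓞 K)}) B = nb K (B / q) := by
  classical
  unfold ni nb
  have hq' : (0 : ℝ) < q := by exact_mod_cast hq
  have hqK : (q : 𝓞 K) ≠ 0 := by exact_mod_cast (by omega : q ≠ 0)
  congr 1
  symm
  refine Finset.card_bij (fun x _ => (q : 𝓞 K) * x) ?_ ?_ ?_
  · intro x hx
    rw [Finset.mem_filter, mem_ball]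
    rw [mem_ball] at hx
    refine ⟨fun φ => ?_, ?_⟩
    · have := hx φ
      rw [emb_nat_mul]
      rw [le_div_iff₀ hq'] at this
      linarith
    · exact Ideal.mem_span_singleton.mpr (Dvd.intro _ rfl)
  · intro x _ y _ h
    exact mul_left_cancel₀ hqK h
  · intro y hy
    rw [Finset.mem_filter, mem_ball, Ideal.mem_span_singleton] at hy
    obtain ⟨h1, x, rfl⟩ := hy
    refine ⟨x, ?_, rfl⟩
    rw [mem_ball]
    intro φ
    have := h1 φ
    rw [emb_nat_mul] at this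
    rw [le_div_iff₀ hq']
    linarith

end Pool.Agent.Helper69.UP
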