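import Pool.Agent.Helper69.UP.M_LG

/-! Project UP: module KU (Chebyshev upper bound) -/

set_option autoImplicit false

noncomputable section

namespace Pool.Agent.Helper69.UP

open Pool.Agent.Helper9.UP
open Finset NumberField Module

variable {K : Type} [Field K] [NumberField K]

open Classical in
theorem mem_pI {Y : ℕ} {P : Ideal (𝓞 K)} :
    P ∈ pI K Y ↔ Ideal.absNorm P ≤ Y ∧ P.IsPrime ∧ P ≠ ⊥ := by
  unfold pI
  rw [Finset.mem_filter, Set.Finite.mem_toFinset]
  rfl

theorem log_nm_nonneg (I : Ideal (𝓞 K)) : 0 ≤ Real.log (nm K I) := by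
  unfold nm
  exact Real.log_natCast_nonneg _

open Classical in
theorem per_x (hF : StFI) {x : 𝓞 K} (hx : x ≠ 0) (Y : ℕ) :
    ∑ P ∈ (pI K Y).filter (fun P => x ∈ P), Real.log (nm K P) ≤
      Real.log (nm K (Ideal.span {x})) := by
  have hF' := hF K x (Ideal.absNorm (Ideal.span {x})) hx le_rfl
  rw [hF']
  have h1 : ∑ P ∈ (pI K Y).filter (fun P => x ∈ P), Real.log (nm K P) =
      ∑ v ∈ ((pI K Y).filter (fun P => x ∈ P)).image (fun P => (P, (1 : ℕ))),
        Real.log (nm K v.1) := by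
    rw [Finset.sum_image]
    intro P _ Q _ h
    exact (Prod.mk.inj h).1
  rw [h1]
  refine Finset.sum_le_sum_of_subset_of_nonneg ?_ (fun v _ _ => log_nm_nonneg _)
  intro v hv
  rw [Finset.mem_image] at hv
  obtain ⟨P, hP, rfl⟩ := hv
  rw [Finset.mem_filter, mem_pI] at hP
  obtain ⟨⟨-, hP1, hP2⟩, hxP⟩ := hP
  have hle : Ideal.span {x} ≤ P := (Ideal.span_singleton_le_iff_mem P).mpr hxP
  have hpos : 0 < Ideal.absNorm (Ideal.span {x}) := by
    have := nm_ge_one (span_ne hx)
    unfold nm at this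
    have : (1 : ℕ) ≤ Ideal.absNorm (Ideal.span {x}) := by exact_mod_cast this
    omega
  have hdv : Ideal.absNorm P ≤ Ideal.absNorm (Ideal.span {x}) :=
    Nat.le_of_dvd hpos (Ideal.absNorm_dvd_absNorm_of_le hle)
  rw [Finset.mem_filter]
  refine ⟨?_, ?_⟩
  · unfold pp
    rw [Finset.mem_filter, Finset.mem_product, mem_pI, Finset.mem_Icc]
    simp only [pow_one]
    exact ⟨⟨⟨hdv, hP1, hP2⟩, le_rfl, hpos⟩, hdv⟩
  · simpa using hxP

open Classical in
theorem card0 {B : ℝ} (hB : 0 ≤ B) (I : Ideal (𝓞 K)) :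
    (((ball0 K B).filter (fun x => x ∈ I)).card : ℝ) = ni K I B - 1 := by
  have h0 : (0 : 𝓞 K) ∈ (ball K B).filter (fun x => x ∈ I) := by
    rw [Finset.mem_filter, mem_ball]
    exact ⟨fun φ => by simpa using hB, I.zero_mem⟩
  have h : (ball0 K B).filter (fun x => x ∈ I) =
      ((ball K B).filter (fun x => x ∈ I)).erase 0 := by
    ext x
    unfold ball0
    simp only [Finset.mem_filter, Finset.mem_erase]
    tauto
  rw [h, Finset.card_erase_of_mem h0, Nat.cast_sub (Finset.card_pos.mpr ⟨_, h0⟩)]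
  unfold ni
  simp

theorem log_nm_le {B : ℝ} {x : 𝓞 K} (hx0 : x ≠ 0)
    (hx : ∀ φ : K →+* ℂ, ‖φ (x : K)‖ ≤ B) :
    Real.log (nm K (Ideal.span {x})) ≤ dg K * Real.log B := by
  rw [nm_prod, Real.log_prod (fun φ _ => (emb_ne hx0 φ).ne')]
  calc ∑ φ : K →+* ℂ, Real.log ‖φ (x : K)‖ ≤ ∑ _φ : K →+* ℂ, Real.log B :=
        Finset.sum_le_sum fun φ _ => Real.log_le_log (emb_ne hx0 φ) (hx φ)
    _ = dg K * Real.log B := by
        rw [Finset.sum_const, Finset.card_univ, card_emb, nsmul_eq_mul]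

theorem hKU (hE : StEQ) (hF : StFI) (hR : StRG) : StKU := by
  classical
  intro K _ _ T hG W Y hW hWY hL
  have hT := one_le_T hG
  have hd := dg_posR (K := K)
  have hdN := dg_pos (K := K)
  have hd0 : (dg K : ℝ) ≠ 0 := by positivity
  have hW1 : 14 ≤ W := by nlinarith
  have hW0 : 0 < W := by linarith
  have hY1 : (1 : ℝ) ≤ Y := le_trans (one_le_pow₀ (by linarith)) hWY
  have hY0 : (0 : ℝ) < Y := by linarith
  set r : ℝ := (Y : ℝ) ^ (1 / (dg K : ℝ)) with hr
  have hr1 : 24 * W ≤ r := by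
    have h := Real.rpow_le_rpow (by positivity) hWY (by positivity : (0 : ℝ) ≤ 1 / (dg K : ℝ))
    rwa [← Real.rpow_natCast, ← Real.rpow_mul (by positivity), mul_one_div_cancel hd0,
      Real.rpow_one] at h
  have hrd : r ^ dg K = Y := by
    rw [hr, ← Real.rpow_natCast, ← Real.rpow_mul (by positivity), one_div_mul_cancel hd0,
      Real.rpow_one]
  have hr0 : 0 < r := by linarith
  set B := T ^ 2 * W * r with hBdef
  have hT2 : 1 ≤ T ^ 2 := one_le_pow₀ hT
  have hB24 : 24 * T ^ 2 * W ^ 2 ≤ B := by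
    have := mul_le_mul_of_nonneg_left hr1 (by positivity : (0 : ℝ) ≤ T ^ 2 * W)
    rw [hBdef]
    nlinarith
  have hTW : 1 ≤ T ^ 2 * W := by nlinarith
  have hB1 : 1 ≤ B := by
    rw [hBdef]
    nlinarith
  have hB0 : 0 < B := by linarith
  have hnb : W * Y ≤ nb K B := by
    refine le_trans ?_ ((hR K T hG B).2.2 hB0.le)
    have : B / T = T * W * r := by
      rw [hBdef]; field_simp
    rw [this, mul_pow, hrd]
    refine mul_le_mul_of_nonneg_right ?_ hY0.le
    have h1 : 1 ≤ T * W := by nlinarith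
    calc W ≤ T * W := by nlinarith
      _ ≤ (T * W) ^ dg K := le_self_pow₀ h1 (by omega)
  have hnb0 : 0 < nb K B := by
    have : 0 < W * Y := by positivity
    linarith
  have hP : ∀ P ∈ pI K Y, (1 - 7 * (dg K : ℝ) / W) * (nb K B * (Real.log (nm K P) / nm K P)) ≤
      Real.log (nm K P) * (((ball0 K B).filter (fun x => x ∈ P)).card : ℝ) := by
    intro P hPm
    rw [mem_pI] at hPm
    obtain ⟨hPY, hPp, hP0⟩ := hPm
    have hn1 := nm_ge_one hP0
    have hnY : nm K P ≤ Y := by unfold nm; exact_mod_cast hPY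
    have hroot : nm K P ^ (1 / (dg K : ℝ)) ≤ r :=
      Real.rpow_le_rpow (by linarith) hnY (by positivity)
    have hE' := hE K T hG W B P (by linarith) hB24 hP0 (by
      rw [hBdef]
      have := mul_le_mul_of_nonneg_left hroot (by positivity : (0 : ℝ) ≤ T ^ 2 * W)
      linarith)
    have h1 := (abs_le.mp hE').1
    rw [card0 hB0.le]
    have hnW : W * nm K P ≤ nb K B := le_trans (by nlinarith) hnb
    have hnm : nm K P ≤ (dg K : ℝ) / W * nb K B := by
      rw [div_mul_eq_mul_div, le_div_iff₀ hW0]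
      nlinarith
    have key : (1 - 7 * (dg K : ℝ) / W) * nb K B ≤ nm K P * (ni K P B - 1) := by
      have e1 : (1 - 7 * (dg K : ℝ) / W) * nb K B =
        nb K B - 6 * (dg K : ℝ) / W * nb K B - (dg K : ℝ) / W * nb K B := by ring
      rw [e1]
      linarith
    have hlog := log_nm_nonneg P
    have hnm0 : 0 < nm K P := by linarith
    have e2 : (1 - 7 * (dg K : ℝ) / W) * (nb K B * (Real.log (nm K P) / nm K P)) =
      Real.log (nm K P) * (((1 - 7 * (dg K : ℝ) / W) * nb K B) / nm K P) := by ring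
    rw [e2]
    refine mul_le_mul_of_nonneg_left ?_ hlog
    rw [div_le_iff₀ hnm0]
    linarith
  have hsum : (1 - 7 * (dg K : ℝ) / W) * (nb K B * S1 K Y) ≤
      nb K B * (dg K * Real.log B) := by
    calc (1 - 7 * (dg K : ℝ) / W) * (nb K B * S1 K Y)
        = ∑ P ∈ pI K Y, (1 - 7 * (dg K : ℝ) / W) * (nb K B * (Real.log (nm K P) / nm K P)) := by
          unfold S1
          rw [Finset.mul_sum, Finset.mul_sum]
      _ ≤ ∑ P ∈ pI K Y, Real.log (nm K P) *
          (((ball0 K B).filter (fun x => x ∈ P)).card : ℝ) := Finset.sum_le_sum hP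
      _ = ∑ P ∈ pI K Y, ∑ x ∈ ball0 K B, (if x ∈ P then Real.log (nm K P) else 0) := by
          refine Finset.sum_congr rfl fun P _ => ?_
          rw [← Finset.sum_filter, Finset.sum_const, nsmul_eq_mul, mul_comm]
      _ = ∑ x ∈ ball0 K B, ∑ P ∈ pI K Y, (if x ∈ P then Real.log (nm K P) else 0) :=
          Finset.sum_comm
      _ ≤ ∑ x ∈ ball0 K B, dg K * Real.log B := by
          refine Finset.sum_le_sum fun x hx => ?_
          unfold ball0 at hx
          rw [Finset.mem_filter, mem_ball] at hx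
          rw [← Finset.sum_filter]
          exact (per_x hF hx.2 Y).trans (log_nm_le hx.2 hx.1)
      _ = ((ball0 K B).card : ℝ) * (dg K * Real.log B) := by
          rw [Finset.sum_const, nsmul_eq_mul]
      _ ≤ nb K B * (dg K * Real.log B) := by
          refine mul_le_mul_of_nonneg_right ?_
            (mul_nonneg (by positivity) (Real.log_nonneg hB1))
          unfold nb ball0
          exact_mod_cast Finset.card_filter_le _ _
  have hsum2 : (1 - 7 * (dg K : ℝ) / W) * S1 K Y ≤ dg K * Real.log B := by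
    have : nb K B * ((1 - 7 * (dg K : ℝ) / W) * S1 K Y) ≤ nb K B * (dg K * Real.log B) := by
      linarith
    exact le_of_mul_le_mul_left this hnb0
  have hS0 : 0 ≤ S1 K Y := by
    unfold S1
    refine Finset.sum_nonneg fun P _ => div_nonneg (log_nm_nonneg _) ?_
    unfold nm
    positivity
  set e := 7 * (dg K : ℝ) / W with he
  have he0 : 0 ≤ e := by positivity
  have he1 : e ≤ 1 / 2 := by
    rw [he, div_le_iff₀ hW0]
    linarith
  have hD0 : 0 ≤ dg K * Real.log B := mul_nonneg (by positivity) (Real.log_nonneg hB1)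
  have h3 : S1 K Y ≤ dg K * Real.log B * (1 + 2 * e) := by
    have h4 : S1 K Y ≤ (1 - e) * S1 K Y * (1 + 2 * e) := by
      have : 1 ≤ (1 - e) * (1 + 2 * e) := by nlinarith
      nlinarith
    exact h4.trans (mul_le_mul_of_nonneg_right hsum2 (by linarith))
  have h5 : dg K * Real.log B * (2 * e) ≤ 1 := by
    have : dg K * Real.log B * (2 * e) = 14 * (dg K : ℝ) ^ 2 * Real.log B / W := by
      rw [he]; ring
    rw [this, div_le_one hW0]
    exact hL
  have h6 : dg K * Real.log B = Real.log Y + (dg K : ℝ) * Real.log (T ^ 2 * W) := by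
    rw [hBdef, Real.log_mul (by positivity) hr0.ne', ← hrd, Real.log_pow]
    ring
  rw [← h6]
  linarith

end Pool.Agent.Helper69.UP
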