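import Pool.Agent.Helper69.UP.M_Cm

/-! Project UP: module LG (average of the logarithm of the norm) -/

set_option autoImplicit false

noncomputable section

namespace Pool.Agent.Helper69.UP

open Pool.Agent.Helper9.UP
open Finset NumberField Module

variable {K : Type} [Field K] [NumberField K]

theorem emb_ne {x : 𝓞 K} (hx : x ≠ 0) (φ : K →+* ℂ) : 0 < ‖φ (x : K)‖ := by
  rw [norm_pos_iff, Ne, map_eq_zero]
  intro h
  exact hx (RingOfIntegers.coe_eq_zero_iff.mp h)

theorem emb_lower {x : 𝓞 K} {B : ℝ} (hx0 : x ≠ 0)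
    (hx : ∀ φ : K →+* ℂ, ‖φ (x : K)‖ ≤ B) (φ : K →+* ℂ) :
    1 ≤ ‖φ (x : K)‖ * B ^ (dg K - 1) := by
  classical
  have h1 := nm_ge_one (span_ne hx0)
  rw [nm_prod, ← Finset.mul_prod_erase Finset.univ _ (Finset.mem_univ φ)] at h1
  refine h1.trans (mul_le_mul_of_nonneg_left ?_ (norm_nonneg _))
  calc ∏ ψ ∈ Finset.univ.erase φ, ‖ψ (x : K)‖ ≤ ∏ _ψ ∈ Finset.univ.erase φ, B :=
        Finset.prod_le_prod (fun _ _ => norm_nonneg _) fun ψ _ => hx ψ
    _ = B ^ (dg K - 1) := by
        rw [Finset.prod_const, Finset.card_erase_of_mem (Finset.mem_univ φ), Finset.card_univ,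
          card_emb]

theorem log_emb_lower {x : 𝓞 K} {B : ℝ} (hB : 0 < B) (hx0 : x ≠ 0)
    (hx : ∀ φ : K →+* ℂ, ‖φ (x : K)‖ ≤ B) (φ : K →+* ℂ) :
    Real.log B - Real.log ‖φ (x : K)‖ ≤ dg K * Real.log B := by
  have h := Real.log_le_log one_pos (emb_lower hx0 hx φ)
  rw [Real.log_one, Real.log_mul (emb_ne hx0 φ).ne' (by positivity), Real.log_pow] at h
  have : ((dg K - 1 : ℕ) : ℝ) = dg K - 1 := by
    rw [Nat.cast_sub dg_pos]
    simp
  rw [this] at h
  linarith

theorem emb_add_nat (φ : K →+* ℂ) (x : 𝓞 K) (k : ℕ) :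
    φ ((x + (k : 𝓞 K) : 𝓞 K) : K) = φ (x : K) + k := by
  have h : ((x + (k : 𝓞 K) : 𝓞 K) : K) = (x : K) + (k : K) := by
    rw [show ((x + (k : 𝓞 K) : 𝓞 K) : K) = algebraMap (𝓞 K) K (x + (k : 𝓞 K)) from rfl,
      map_add, map_natCast]
  rw [h, map_add, map_natCast]

open Classical in
theorem cnt {B η : ℝ} (hB : 1 ≤ B) (hη : 0 ≤ η) (h2B : nb K (2 * B) ≤ 4 ^ dg K * nb K B)
    (φ : K →+* ℂ) :
    (((ball K B).filter (fun x : 𝓞 K => ‖φ (x : K)‖ ≤ η * B)).card : ℝ) ≤
      (2 * η + 1 / B) * 4 ^ dg K * nb K B := by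
  set E := (ball K B).filter (fun x : 𝓞 K => ‖φ (x : K)‖ ≤ η * B) with hE
  set q := ⌊2 * η * B⌋₊ + 1 with hq
  set N := ⌊B / q⌋₊ + 1 with hN
  have hB0 : 0 < B := by linarith
  have hq1 : 2 * η * B < (q : ℝ) := by
    rw [hq]; push_cast; exact Nat.lt_floor_add_one _
  have hq2 : (q : ℝ) ≤ 2 * η * B + 1 := by
    rw [hq]; push_cast
    have := Nat.floor_le (by positivity : 0 ≤ 2 * η * B)
    linarith
  have hq0 : (0 : ℝ) < q := by rw [hq]; positivity
  have hN1 : B / q ≤ N := by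
    rw [hN]; push_cast; exact (Nat.lt_floor_add_one _).le
  have hcard : (E ×ˢ range N).card ≤ (ball K (2 * B)).card := by
    refine Finset.card_le_card_of_injOn (fun v => v.1 + ((v.2 * q : ℕ) : 𝓞 K)) ?_ ?_
    · rintro ⟨x, k⟩ hv
      rw [Finset.mem_coe, Finset.mem_product, hE, Finset.mem_filter, mem_ball,
        Finset.mem_range] at hv
      obtain ⟨⟨hx, -⟩, hk⟩ := hv
      rw [Finset.mem_coe, mem_ball]
      intro ψ
      simp only
      rw [emb_add_nat]
      refine (norm_add_le _ _).trans ?_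
      rw [Complex.norm_natCast]
      have h1 : (k : ℝ) ≤ B / q := by
        have : k ≤ ⌊B / q⌋₊ := by
          have : k < N := hk
          omega
        exact (by exact_mod_cast this : (k : ℝ) ≤ (⌊B / q⌋₊ : ℝ)).trans
          (Nat.floor_le (by positivity))
      rw [le_div_iff₀ hq0] at h1
      have h2 := hx ψ
      push_cast
      linarith
    · rintro ⟨x, k⟩ hv ⟨x', k'⟩ hv' h
      rw [Finset.mem_coe, Finset.mem_product, hE, Finset.mem_filter] at hv hv'
      simp only at h hv hv'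
      have hφ := congrArg (fun z : 𝓞 K => φ (z : K)) h
      simp only [emb_add_nat] at hφ
      have hkk : k = k' := by
        by_contra hne
        have h3 : φ (x : K) - φ (x' : K) = (((k' : ℝ) - k) * q : ℝ) := by
          push_cast at hφ ⊢
          linear_combination hφ
        have h4 : ‖φ (x : K) - φ (x' : K)‖ = |(k' : ℝ) - k| * q := by
          rw [h3, Complex.norm_real, Real.norm_eq_abs, abs_mul, abs_of_pos hq0]
        have h5 : ‖φ (x : K) - φ (x' : K)‖ ≤ 2 * η * B := by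
          refine (norm_sub_le _ _).trans ?_
          have := hv.1.2
          have := hv'.1.2
          linarith
        have h6 : (1 : ℝ) ≤ |(k' : ℝ) - k| := by
          have : (1 : ℤ) ≤ |(k' : ℤ) - k| := Int.one_le_abs (by omega)
          exact_mod_cast this
        nlinarith
      subst hkk
      simp only [Prod.mk.injEq, and_true]
      exact add_right_cancel h
  have h1 : (E.card : ℝ) * N ≤ 4 ^ dg K * nb K B := by
    refine le_trans ?_ h2B
    unfold nb
    rw [Finset.card_product, Finset.card_range] at hcard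
    exact_mod_cast hcard
  have h2 : (E.card : ℝ) * (B / q) ≤ 4 ^ dg K * nb K B :=
    (mul_le_mul_of_nonneg_left hN1 (by positivity)).trans h1
  have h3 : (E.card : ℝ) ≤ (q / B) * (4 ^ dg K * nb K B) := by
    rw [div_mul_eq_mul_div, le_div_iff₀ hB0]
    rw [mul_div_assoc', div_le_iff₀ hq0] at h2
    linarith
  refine h3.trans ?_
  rw [mul_assoc]
  refine mul_le_mul_of_nonneg_right ?_ (mul_nonneg (by positivity) (nb_nonneg _))
  rw [div_le_iff₀ hB0]
  have : (2 * η + 1 / B) * B = 2 * η * B + 1 := by field_simp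
  linarith

theorem tail_sum (d N : ℕ) (b : ℝ) :
    ∑ k ∈ range N, ((if k < 2 * d then (1 : ℝ) else 0) +
      (if 2 * d ≤ k then 2 * 4 ^ d * (1 / 2) ^ k else 0) + b) ≤ 2 * d + 4 + N * b := by
  rw [Finset.sum_add_distrib, Finset.sum_add_distrib, Finset.sum_const, Finset.card_range,
    nsmul_eq_mul]
  have h1 : ∑ k ∈ range N, (if k < 2 * d then (1 : ℝ) else 0) ≤ 2 * d := by
    rw [← Finset.sum_filter, Finset.sum_const, nsmul_eq_mul, mul_one]
    have : ((range N).filter (fun k => k < 2 * d)).card ≤ (range (2 * d)).card := by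
      apply Finset.card_le_card
      intro k hk
      rw [Finset.mem_filter] at hk
      exact Finset.mem_range.mpr hk.2
    rw [Finset.card_range] at this
    exact_mod_cast this
  have h2 : ∑ k ∈ range N, (if 2 * d ≤ k then 2 * (4 : ℝ) ^ d * (1 / 2) ^ k else 0) ≤ 4 := by
    have hs : ∑ k ∈ range N, (if 2 * d ≤ k then 2 * (4 : ℝ) ^ d * (1 / 2) ^ k else 0) ≤
        ∑ k ∈ Finset.Ico (2 * d) (2 * d + N), 2 * (4 : ℝ) ^ d * (1 / 2) ^ k := by
      rw [← Finset.sum_filter]
      refine Finset.sum_le_sum_of_subset_of_nonneg ?_ (fun _ _ _ => by positivity)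
      intro k hk
      rw [Finset.mem_filter, Finset.mem_range] at hk
      rw [Finset.mem_Ico]
      omega
    refine hs.trans ?_
    rw [Finset.sum_Ico_eq_sum_range, Nat.add_sub_cancel_left]
    have he : ∀ j ∈ range N, 2 * (4 : ℝ) ^ d * (1 / 2) ^ (2 * d + j) = 2 * (1 / 2) ^ j := by
      intro j _
      rw [pow_add, pow_mul]
      have : (4 : ℝ) ^ d * ((1 / 2) ^ 2) ^ d = 1 := by
        rw [← mul_pow]; norm_num
      calc 2 * (4 : ℝ) ^ d * (((1 / 2) ^ 2) ^ d * (1 / 2) ^ j)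
          = 2 * ((4 : ℝ) ^ d * ((1 / 2) ^ 2) ^ d) * (1 / 2) ^ j := by ring
        _ = 2 * (1 / 2) ^ j := by rw [this]; ring
    rw [Finset.sum_congr rfl he, ← Finset.mul_sum]
    have := sum_geometric_two_le N
    linarith
  linarith

open Classical in
theorem one_emb {B : ℝ} (hB : 1 ≤ B) (h2B : nb K (2 * B) ≤ 4 ^ dg K * nb K B)
    (hL : 4 ^ dg K * ((dg K : ℝ) * Real.log B + 1) ≤ B) (φ : K →+* ℂ) :
    ∑ x ∈ ball0 K B, (Real.log B - Real.log ‖φ (x : K)‖) ≤ 8 * (dg K : ℝ) * nb K B := by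
  have hB0 : 0 < B := by linarith
  have hd := dg_posR (K := K)
  have hlB : 0 ≤ Real.log B := Real.log_nonneg hB
  set N := ⌊(dg K : ℝ) * Real.log B⌋₊ + 1 with hN
  have hN1 : (N : ℝ) ≤ dg K * Real.log B + 1 := by
    rw [hN]; push_cast
    have := Nat.floor_le (by positivity : 0 ≤ (dg K : ℝ) * Real.log B)
    linarith
  have step1 : ∀ x ∈ ball0 K B, Real.log B - Real.log ‖φ (x : K)‖ ≤
      ∑ k ∈ range N, (if ‖φ (x : K)‖ ≤ Real.exp (-(k : ℝ)) * B then (1 : ℝ) else 0) := by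
    intro x hx
    unfold ball0 at hx
    rw [Finset.mem_filter, mem_ball] at hx
    obtain ⟨hx1, hx0⟩ := hx
    have hpos := emb_ne hx0 φ
    set u := Real.log B - Real.log ‖φ (x : K)‖ with hu
    have hu1 : u ≤ dg K * Real.log B := log_emb_lower hB0 hx0 hx1 φ
    have hu0 : 0 ≤ u := by
      have := Real.log_le_log hpos (hx1 φ)
      linarith
    rw [← Finset.sum_filter, Finset.sum_const, nsmul_eq_mul, mul_one]
    have hsub : range (⌊u⌋₊ + 1) ⊆
        (range N).filter (fun k : ℕ => ‖φ (x : K)‖ ≤ Real.exp (-(k : ℝ)) * B) := by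
      intro k hk
      rw [Finset.mem_range] at hk
      rw [Finset.mem_filter, Finset.mem_range]
      constructor
      · have := Nat.floor_le_floor hu1
        omega
      · have hk2 : (k : ℝ) ≤ u := by
          have : k ≤ ⌊u⌋₊ := by omega
          exact (by exact_mod_cast this : (k : ℝ) ≤ (⌊u⌋₊ : ℝ)).trans (Nat.floor_le hu0)
        rw [← Real.log_le_log_iff hpos (by positivity), Real.log_mul (Real.exp_pos _).ne' hB0.ne',
          Real.log_exp]
        linarith
    have hc := Finset.card_le_card hsub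
    rw [Finset.card_range] at hc
    have h3 : u < (⌊u⌋₊ : ℝ) + 1 := Nat.lt_floor_add_one u
    have h4 : ((⌊u⌋₊ + 1 : ℕ) : ℝ) ≤
        (((range N).filter (fun k : ℕ => ‖φ (x : K)‖ ≤ Real.exp (-(k : ℝ)) * B)).card : ℝ) := by
      exact_mod_cast hc
    push_cast at h4
    linarith
  have step2 : ∀ k ∈ range N,
      ∑ x ∈ ball0 K B, (if ‖φ (x : K)‖ ≤ Real.exp (-(k : ℝ)) * B then (1 : ℝ) else 0) ≤
      ((if k < 2 * dg K then (1 : ℝ) else 0) +
      (if 2 * dg K ≤ k then 2 * 4 ^ dg K * (1 / 2) ^ k else 0) + 4 ^ dg K / B) * nb K B := by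
    intro k _
    rw [← Finset.sum_filter, Finset.sum_const, nsmul_eq_mul, mul_one]
    have hsub : (ball0 K B).filter (fun x : 𝓞 K => ‖φ (x : K)‖ ≤ Real.exp (-(k : ℝ)) * B) ⊆
        (ball K B).filter (fun x : 𝓞 K => ‖φ (x : K)‖ ≤ Real.exp (-(k : ℝ)) * B) := by
      apply Finset.filter_subset_filter
      unfold ball0
      exact Finset.filter_subset _ _
    have hc1 : (((ball0 K B).filter (fun x : 𝓞 K => ‖φ (x : K)‖ ≤ Real.exp (-(k : ℝ)) * B)).card : ℝ) ≤
        (((ball K B).filter (fun x : 𝓞 K => ‖φ (x : K)‖ ≤ Real.exp (-(k : ℝ)) * B)).card : ℝ) := by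
      exact_mod_cast Finset.card_le_card hsub
    have hnb := nb_nonneg (K := K) B
    by_cases hk : k < 2 * dg K
    · rw [if_pos hk, if_neg (by omega)]
      have hc2 : (((ball K B).filter (fun x : 𝓞 K => ‖φ (x : K)‖ ≤ Real.exp (-(k : ℝ)) * B)).card : ℝ) ≤
          nb K B := by
        unfold nb
        exact_mod_cast Finset.card_filter_le _ _
      have : 0 ≤ 4 ^ dg K / B * nb K B := by positivity
      nlinarith
    · rw [if_neg hk, if_pos (by omega)]
      refine hc1.trans ((cnt hB (Real.exp_pos _).le h2B φ).trans ?_)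
      refine mul_le_mul_of_nonneg_right ?_ hnb
      have he : Real.exp (-(k : ℝ)) ≤ (1 / 2) ^ k := by
        rw [Real.exp_neg, ← Real.exp_one_pow k, one_div, inv_pow]
        apply inv_anti₀ (by positivity)
        apply pow_le_pow_left₀ (by norm_num)
        have := Real.add_one_le_exp (1 : ℝ)
        linarith
      have h4 : (0 : ℝ) < 4 ^ dg K := by positivity
      have : (2 * Real.exp (-(k : ℝ)) + 1 / B) * 4 ^ dg K =
        2 * 4 ^ dg K * Real.exp (-(k : ℝ)) + 4 ^ dg K / B := by ring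
      rw [this, zero_add]
      have := mul_le_mul_of_nonneg_left he (by positivity : (0 : ℝ) ≤ 2 * 4 ^ dg K)
      linarith
  calc ∑ x ∈ ball0 K B, (Real.log B - Real.log ‖φ (x : K)‖)
      ≤ ∑ x ∈ ball0 K B, ∑ k ∈ range N,
        (if ‖φ (x : K)‖ ≤ Real.exp (-(k : ℝ)) * B then (1 : ℝ) else 0) :=
        Finset.sum_le_sum step1
    _ = ∑ k ∈ range N, ∑ x ∈ ball0 K B,
        (if ‖φ (x : K)‖ ≤ Real.exp (-(k : ℝ)) * B then (1 : ℝ) else 0) := Finset.sum_comm
    _ ≤ ∑ k ∈ range N, ((if k < 2 * dg K then (1 : ℝ) else 0) +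
      (if 2 * dg K ≤ k then 2 * 4 ^ dg K * (1 / 2) ^ k else 0) + 4 ^ dg K / B) * nb K B :=
        Finset.sum_le_sum step2
    _ = (∑ k ∈ range N, ((if k < 2 * dg K then (1 : ℝ) else 0) +
      (if 2 * dg K ≤ k then 2 * 4 ^ dg K * (1 / 2) ^ k else 0) + 4 ^ dg K / B)) * nb K B := by
        rw [Finset.sum_mul]
    _ ≤ (2 * dg K + 4 + N * (4 ^ dg K / B)) * nb K B :=
        mul_le_mul_of_nonneg_right (tail_sum _ _ _) (nb_nonneg _)
    _ ≤ 8 * (dg K : ℝ) * nb K B := by
        refine mul_le_mul_of_nonneg_right ?_ (nb_nonneg _)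
        have h1 : N * (4 ^ dg K / B) ≤ 1 := by
          rw [mul_div_assoc', div_le_one hB0]
          have := mul_le_mul_of_nonneg_left hN1 (by positivity : (0 : ℝ) ≤ 4 ^ dg K)
          linarith
        linarith

theorem hLG (hR : StRG) : StLG := by
  classical
  intro K _ _ T hG B hB hL
  have hT := one_le_T hG
  have hT2 : 1 ≤ T ^ 2 := one_le_pow₀ hT
  have hB1 : 1 ≤ B := by linarith
  have hB0 : 0 < B := by linarith
  have h2B : nb K (2 * B) ≤ 4 ^ dg K * nb K B := by
    have := (hR K T hG B).1 1 one_pos le_rfl (by simpa using hB)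
    norm_num at this
    exact this
  have key : ∀ x ∈ ball0 K B, ((dg K : ℝ) * Real.log B - Real.log (nm K (Ideal.span {x}))) =
      ∑ φ : K →+* ℂ, (Real.log B - Real.log ‖φ (x : K)‖) := by
    intro x hx
    unfold ball0 at hx
    rw [Finset.mem_filter, mem_ball] at hx
    obtain ⟨hx1, hx0⟩ := hx
    rw [nm_prod, Real.log_prod (fun φ _ => (emb_ne hx0 φ).ne'), Finset.sum_sub_distrib,
      Finset.sum_const, Finset.card_univ, card_emb, nsmul_eq_mul]
  rw [Finset.sum_congr rfl key, Finset.sum_comm]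
  calc ∑ φ : K →+* ℂ, ∑ x ∈ ball0 K B, (Real.log B - Real.log ‖φ (x : K)‖)
      ≤ ∑ _φ : K →+* ℂ, 8 * (dg K : ℝ) * nb K B :=
        Finset.sum_le_sum fun φ _ => one_emb hB1 h2B hL φ
    _ = 8 * (dg K : ℝ) ^ 2 * nb K B := by
        rw [Finset.sum_const, Finset.card_univ, card_emb, nsmul_eq_mul]
        ring

end Pool.Agent.Helper69.UP
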