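import Pool.Agent.Helper69.UP.M_Cm

/-! Project UP: module RG (regularity of the number of points) -/

set_option autoImplicit false

noncomputable section

namespace Pool.Agent.Helper69.UP

open Pool.Agent.Helper9.UP
open Finset NumberField Module

variable {K : Type} [Field K] [NumberField K]

theorem dcL (hD : StDC) {T : ℝ} (hG : Gen K T) {q : ℕ} (hq : 1 ≤ q) (B : ℝ) :
    (q : ℝ) ^ dg K * nb K (B / q - T ^ 2) ≤ nb K B := by
  have hq' : (0 : ℝ) < q := by exact_mod_cast hq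
  have h := (hD K T hG _ (nat_ne (K := K) hq) (B - T ^ 2 * q)).1
  rw [nm_nat_root hq, nm_nat, ni_nat hq] at h
  have e1 : (B - T ^ 2 * q) / q = B / q - T ^ 2 := by field_simp
  have e2 : B - T ^ 2 * q + T ^ 2 * q = B := by ring
  rwa [e1, e2] at h

theorem dcU (hD : StDC) {T : ℝ} (hG : Gen K T) {q : ℕ} (hq : 1 ≤ q) (B : ℝ) :
    nb K B ≤ (q : ℝ) ^ dg K * nb K (B / q + T ^ 2) := by
  have hq' : (0 : ℝ) < q := by exact_mod_cast hq
  have h := (hD K T hG _ (nat_ne (K := K) hq) (B + T ^ 2 * q)).2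
  rw [nm_nat_root hq, nm_nat, ni_nat hq] at h
  have e1 : (B + T ^ 2 * q) / q = B / q + T ^ 2 := by field_simp
  have e2 : B + T ^ 2 * q - T ^ 2 * q = B := by ring
  rwa [e1, e2] at h

theorem rg1 (hD : StDC) {T : ℝ} (hG : Gen K T) (B δ : ℝ) (hδ : 0 < δ) (hδ1 : δ ≤ 1)
    (hB : 12 * T ^ 2 / δ ^ 2 ≤ B) : nb K ((1 + δ) * B) ≤ (1 + 3 * δ) ^ dg K * nb K B := by
  have hT := one_le_T hG
  have hT2 : 1 ≤ T ^ 2 := one_le_pow₀ hT
  have hB0 : 0 < B := lt_of_lt_of_le (by positivity) hB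
  set q := ⌈1 / δ⌉₊ with hqdef
  set q' := ⌈(1 + 2 * δ) * q⌉₊ with hqdef'
  have hq1 : 1 / δ ≤ q := Nat.le_ceil _
  have hq2 : (q : ℝ) < 1 / δ + 1 := Nat.ceil_lt_add_one (by positivity)
  have h1δ : 1 ≤ 1 / δ := by rw [le_div_iff₀ hδ]; linarith
  have hqR : (1 : ℝ) ≤ q := le_trans h1δ hq1
  have hq : 1 ≤ q := by exact_mod_cast hqR
  have hq3 : (q : ℝ) ≤ 2 / δ := by
    have : (2 : ℝ) / δ = 1 / δ + 1 / δ := by ring
    linarith
  have hδq : 1 ≤ δ * q := by
    rw [div_le_iff₀ hδ] at hq1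
    linarith
  have hδq2 : δ * q ≤ 2 := by
    rw [le_div_iff₀ hδ] at hq3
    linarith
  have hq'1 : (1 + 2 * δ) * q ≤ q' := Nat.le_ceil _
  have hq'2 : (q' : ℝ) < (1 + 2 * δ) * q + 1 := Nat.ceil_lt_add_one (by positivity)
  have hq'3 : (q' : ℝ) ≤ (1 + 3 * δ) * q := by nlinarith
  have hq'R : (1 : ℝ) ≤ q' := by nlinarith
  have hq'N : 1 ≤ q' := by exact_mod_cast hq'R
  have key : (1 + δ) * B / q' + T ^ 2 ≤ B / q - T ^ 2 := by
    have a1 : (1 + δ) * B / q' ≤ (B / q) * (1 - δ / 3) := by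
      rw [div_le_iff₀ (by positivity), div_mul_eq_mul_div, div_mul_eq_mul_div,
        le_div_iff₀ (by positivity)]
      have hx : 1 + δ ≤ (1 - δ / 3) * (1 + 2 * δ) := by nlinarith
      have hy : (1 - δ / 3) * ((1 + 2 * δ) * q) ≤ (1 - δ / 3) * q' :=
        mul_le_mul_of_nonneg_left hq'1 (by linarith)
      have hz : (1 + δ) * q ≤ (1 - δ / 3) * ((1 + 2 * δ) * q) := by
        have := mul_le_mul_of_nonneg_right hx (by positivity : (0 : ℝ) ≤ q)
        linarith
      have := mul_le_mul_of_nonneg_left (hz.trans hy) hB0.le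
      nlinarith
    have a2 : 2 * T ^ 2 ≤ (B / q) * (δ / 3) := by
      rw [div_le_iff₀ (by positivity)] at hB
      rw [div_mul_eq_mul_div, le_div_iff₀ (by positivity)]
      have h6 : 2 * T ^ 2 * q * δ ≤ 2 * T ^ 2 * 2 := by
        have := mul_le_mul_of_nonneg_left hδq2 (by positivity : (0 : ℝ) ≤ 2 * T ^ 2)
        nlinarith
      have h7 : 2 * T ^ 2 * q * δ ≤ B * (δ / 3) * δ := by nlinarith
      exact le_of_mul_le_mul_right h7 hδ
    nlinarith
  have s1 := dcU hD hG hq'N ((1 + δ) * B)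
  have s2 := nb_mono (K := K) key
  have s3 := dcL hD hG hq B
  have hqd : (0 : ℝ) < (q : ℝ) ^ dg K := by positivity
  calc nb K ((1 + δ) * B) ≤ (q' : ℝ) ^ dg K * nb K (B / q - T ^ 2) :=
        s1.trans (mul_le_mul_of_nonneg_left s2 (by positivity))
    _ ≤ ((1 + 3 * δ) * q) ^ dg K * nb K (B / q - T ^ 2) :=
        mul_le_mul_of_nonneg_right (pow_le_pow_left₀ (by positivity) hq'3 _) (nb_nonneg _)
    _ = (1 + 3 * δ) ^ dg K * ((q : ℝ) ^ dg K * nb K (B / q - T ^ 2)) := by
        rw [mul_pow]; ring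
    _ ≤ (1 + 3 * δ) ^ dg K * nb K B := mul_le_mul_of_nonneg_left s3 (by positivity)

theorem rg2 (hD : StDC) {T : ℝ} (hG : Gen K T) (B : ℝ) (hB : 2 * T ^ 2 ≤ B) :
    nb K (2 * T ^ 2 * B) ≤ (5 * T ^ 2) ^ dg K * nb K B := by
  have hT := one_le_T hG
  have hT2 : 1 ≤ T ^ 2 := one_le_pow₀ hT
  have hB0 : 0 < B := lt_of_lt_of_le (by positivity) hB
  set q' := ⌈4 * T ^ 2⌉₊ with hqdef'
  have hq'1 : 4 * T ^ 2 ≤ q' := Nat.le_ceil _
  have hq'2 : (q' : ℝ) < 4 * T ^ 2 + 1 := Nat.ceil_lt_add_one (by positivity)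
  have hq'R : (1 : ℝ) ≤ q' := by nlinarith
  have hq'N : 1 ≤ q' := by exact_mod_cast hq'R
  have key : 2 * T ^ 2 * B / q' + T ^ 2 ≤ B := by
    have a1 : 2 * T ^ 2 * B / q' ≤ B / 2 := by
      rw [div_le_iff₀ (by positivity)]
      nlinarith
    linarith
  have s1 := dcU hD hG hq'N (2 * T ^ 2 * B)
  have s2 := nb_mono (K := K) key
  calc nb K (2 * T ^ 2 * B) ≤ (q' : ℝ) ^ dg K * nb K B :=
        s1.trans (mul_le_mul_of_nonneg_left s2 (by positivity))
    _ ≤ (5 * T ^ 2) ^ dg K * nb K B :=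
        mul_le_mul_of_nonneg_right (pow_le_pow_left₀ (by positivity) (by linarith) _) (nb_nonneg _)

theorem rg3 {T : ℝ} (hG : Gen K T) (B : ℝ) (hB : 0 ≤ B) : (B / T) ^ dg K ≤ nb K B := by
  classical
  have hT := one_le_T hG
  obtain ⟨α, hli, hα⟩ := hG
  have hT0 : 0 < T := by linarith
  set m : ℤ := ⌊B / T⌋ with hm
  have hBT : 0 ≤ B / T := by positivity
  have hm0 : 0 ≤ m := Int.floor_nonneg.mpr hBT
  have hmB : (m : ℝ) ≤ B / T := Int.floor_le _
  have hmB2 : B / T < m + 1 := Int.lt_floor_add_one _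
  let F : (Fin (dg K) → ℤ) → 𝓞 K := fun c => ∑ i : Fin (dg K), c i • α ^ (i : ℕ)
  have hinj : Function.Injective F := by
    intro c c' h
    have h2 : ∑ i : Fin (dg K), (c i - c' i) • α ^ (i : ℕ) = 0 := by
      have : F c - F c' = 0 := sub_eq_zero.mpr h
      simpa [F, sub_smul, Finset.sum_sub_distrib] using this
    rw [Fintype.linearIndependent_iff] at hli
    funext i
    exact sub_eq_zero.mp (hli _ h2 i)
  let S : Finset (Fin (dg K) → ℤ) := Fintype.piFinset fun _ => Finset.Icc (-m) m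
  have hcard : S.card = ((2 * m + 1).toNat) ^ dg K := by
    simp only [S, Fintype.card_piFinset, Int.card_Icc, Finset.prod_const, Finset.card_univ,
      Fintype.card_fin]
    congr 2
    ring
  have hsub : S.image F ⊆ ball K B := by
    intro x hx
    rw [Finset.mem_image] at hx
    obtain ⟨c, hc, rfl⟩ := hx
    rw [mem_ball]
    intro φ
    have hF : ((F c : 𝓞 K) : K) = ∑ i : Fin (dg K), (c i : K) * (α : K) ^ (i : ℕ) := by
      simp only [F]
      rw [show ((∑ i : Fin (dg K), c i • α ^ (i : ℕ) : 𝓞 K) : K) =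
        algebraMap (𝓞 K) K (∑ i : Fin (dg K), c i • α ^ (i : ℕ)) from rfl, map_sum]
      refine Finset.sum_congr rfl fun i _ => ?_
      rw [zsmul_eq_mul, map_mul, map_intCast, map_pow]
    rw [hF, map_sum]
    have hd := dg_posR (K := K)
    calc ‖∑ i : Fin (dg K), φ ((c i : K) * (α : K) ^ (i : ℕ))‖
        ≤ ∑ i : Fin (dg K), ‖φ ((c i : K) * (α : K) ^ (i : ℕ))‖ := norm_sum_le _ _
      _ ≤ ∑ i : Fin (dg K), (B / T) * (T / dg K) := by
          refine Finset.sum_le_sum fun i _ => ?_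
          rw [map_mul, map_intCast, map_pow, norm_mul, norm_pow]
          have h1 : ‖(c i : ℂ)‖ ≤ B / T := by
            have hci := (Fintype.mem_piFinset.mp hc) i
            rw [Finset.mem_Icc] at hci
            rw [Complex.norm_intCast]
            refine le_trans ?_ hmB
            rw [abs_le]
            constructor
            · exact_mod_cast hci.1
            · exact_mod_cast hci.2
          have h2 : ‖φ (α : K)‖ ^ (i : ℕ) ≤ T / dg K := by
            rw [le_div_iff₀ (by linarith)]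
            have := hα φ i i.2
            linarith
          exact mul_le_mul h1 h2 (by positivity) hBT
      _ = B := by
          rw [Finset.sum_const, Finset.card_univ, Fintype.card_fin, nsmul_eq_mul]
          field_simp
  have h1 : S.card ≤ (ball K B).card := by
    rw [← Finset.card_image_of_injective S hinj]
    exact Finset.card_le_card hsub
  have h2 : ((2 * m + 1).toNat : ℝ) = 2 * m + 1 := by
    have : (((2 * m + 1).toNat : ℤ) : ℝ) = ((2 * m + 1 : ℤ) : ℝ) := by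
      rw [Int.toNat_of_nonneg (by omega)]
    rw [Int.cast_natCast] at this
    rw [this]
    push_cast
    ring
  calc (B / T) ^ dg K ≤ (2 * m + 1) ^ dg K := by
        apply pow_le_pow_left₀ hBT
        have : (0 : ℝ) ≤ m := by exact_mod_cast hm0
        linarith
    _ = (S.card : ℝ) := by
        rw [hcard]
        push_cast
        rw [← h2]
    _ ≤ nb K B := by
        unfold nb
        exact_mod_cast h1

theorem hRG (hD : StDC) : StRG := by
  intro K _ _ T hG B
  exact ⟨fun δ h1 h2 h3 => rg1 hD hG B δ h1 h2 h3, fun h => rg2 hD hG B h, fun h => rg3 hG B h⟩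

end Pool.Agent.Helper69.UP
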